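import Pool.Agent.ZAR.Stmts

set_option autoImplicit false

/-!
# Squad ZAR, row IMP: the image of a line
-/

namespace Pool.Agent.ZAR.H39

open Pool.Agent.ZAR MvPowerSeries

theorem hs_line {n : ℕ} {K : Type} [Field K] (e : Fin n → K) :
    HasSubst (fun i => (C (e i) * X 0 : MvPowerSeries (Fin 1) K)) :=
  hasSubst_of_constantCoeff_zero fun i => by rw [map_mul, constantCoeff_X, mul_zero]

/-- `PL e` is a radical ideal. -/
theorem pl_radical (ker : KERStmt) {n : ℕ} {K : Type} [Field K] (e : Fin n → K) (he : e ≠ 0) :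
    (PL e).radical = PL e := by
  refine le_antisymm ?_ Ideal.le_radical
  intro f hf
  obtain ⟨k, hk⟩ := hf
  rw [ker K n e he] at hk ⊢
  unfold evL at hk ⊢
  rw [subst_pow (hs_line e)] at hk
  exact eq_zero_of_pow_eq_zero hk

theorem map_pl {n : ℕ} (K L : Type) [Field K] [Field L] [Algebra K L] (e : Fin n → K) :
    (PL e).map (bc K L (Fin n)) = PL (fun i => algebraMap K L (e i)) := by
  unfold PL
  rw [Ideal.map_span]
  congr 1
  ext g
  constructor
  · rintro ⟨f, ⟨i, j, rfl⟩, rfl⟩
    refine ⟨i, j, ?_⟩
    simp only [map_sub, map_mul, MvPowerSeries.map_C, MvPowerSeries.map_X]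
  · rintro ⟨i, j, rfl⟩
    refine ⟨C (e i) * X j - C (e j) * X i, ⟨i, j, rfl⟩, ?_⟩
    simp only [map_sub, map_mul, MvPowerSeries.map_C, MvPowerSeries.map_X]

theorem ext_pl (ker : KERStmt) {n : ℕ} (K L : Type) [Field K] [Field L] [Algebra K L]
    (e : Fin n → K) (he : e ≠ 0) :
    extI L (PL e) = PL (fun i => algebraMap K L (e i)) := by
  unfold extI
  rw [map_pl]
  apply pl_radical ker
  intro h
  apply he
  funext i
  have := congrFun h i
  simpa using this

theorem imp (ker : KERStmt) : IMPStmt := by
  intro K L _ _ _ n u e he hu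
  unfold imgI
  rw [ext_pl ker K L e he]
  have he' : (fun i => algebraMap K L (e i)) ≠ 0 := by
    intro h
    apply he
    funext i
    have := congrFun h i
    simpa using this
  have hy : HasSubst (xu u (X : Fin (n + 1) → MvPowerSeries (Fin (n + 1)) K)) := by
    apply hasSubst_of_constantCoeff_zero
    intro i
    unfold xu
    rw [map_sum]
    apply Finset.sum_eq_zero
    intro j _
    rw [map_mul, MvPowerSeries.map_X, constantCoeff_X, mul_zero]
  have hset : {g | subst (xu u (X : Fin (n + 1) → MvPowerSeries (Fin (n + 1)) K)) g ∈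
      PL (fun i => algebraMap K L (e i))} =
      (PL (fun i => ∑ j, u i j * algebraMap K L (e j)) : Set (MvPowerSeries (Fin n) L)) := by
    ext g
    rw [Set.mem_setOf_eq, SetLike.mem_coe, ker L _ _ he', ker L _ _ hu]
    have : evL (fun i => algebraMap K L (e i))
        (subst (xu u (X : Fin (n + 1) → MvPowerSeries (Fin (n + 1)) K)) g) =
        evL (fun i => ∑ j, u i j * algebraMap K L (e j)) g := by
      unfold evL
      rw [subst_comp_subst_apply hy (hs_line _)]
      congr 1
      funext i
      unfold xu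
      rw [← substAlgHom_apply (hs_line _), map_sum, map_sum, Finset.sum_mul]
      refine Finset.sum_congr rfl fun j _ => ?_
      rw [MvPowerSeries.map_X, map_mul, substAlgHom_X, substAlgHom_apply, subst_C, map_mul,
        mul_assoc]
    rw [this]
  unfold proj
  rw [hset, Ideal.span_eq]
  exact pl_radical ker _ hu

end Pool.Agent.ZAR.H39
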