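import Pool.Agent.ZAR.Stmts

set_option autoImplicit false

/-!
# Squad ZAR, row NEW: Newton iteration in a complete ring
-/

namespace Pool.Agent.ZAR.H39

open Pool.Agent.ZAR

/-- A matrix maps vectors with coordinates in an ideal to such vectors. -/
theorem mulVec_mem {S : Type} [CommRing S] {n : ℕ} (J : Ideal S) (N : Matrix (Fin n) (Fin n) S)
    (v : Fin n → S) (h : ∀ i, v i ∈ J) (i : Fin n) : N.mulVec v i ∈ J := by
  unfold Matrix.mulVec dotProduct
  exact Ideal.sum_mem _ fun j _ => J.mul_mem_left _ (h j)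

theorem newton : NEWStmt := by
  intro S _ m hc n F M y0 hM hF0 hF
  set N := M⁻¹ with hN
  have hMN : M * N = 1 := Matrix.mul_nonsing_inv M hM
  -- the iteration
  let Y : ℕ → (Fin n → S) := fun k => Nat.rec y0 (fun _ y => y - N.mulVec (F y)) k
  have hY0 : Y 0 = y0 := rfl
  have hYs : ∀ k, Y (k + 1) = Y k - N.mulVec (F (Y k)) := fun k => rfl
  have key : ∀ k, (∀ i, Y k i - y0 i ∈ m) ∧ (∀ i, F (Y k) i ∈ m ^ (k + 1)) := by
    intro k
    induction k with
    | zero =>
      refine ⟨fun i => ?_, fun i => ?_⟩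
      · rw [hY0, sub_self]; exact m.zero_mem
      · rw [hY0, zero_add, pow_one]; exact hF0 i
    | succ k ih =>
      obtain ⟨h1, h2⟩ := ih
      have h3 : ∀ i, Y (k + 1) i - Y k i ∈ m ^ (k + 1) := by
        intro i
        have : Y (k + 1) i - Y k i = -(N.mulVec (F (Y k)) i) := by
          rw [hYs]; simp
        rw [this]
        exact (m ^ (k + 1)).neg_mem (mulVec_mem _ _ _ h2 i)
      have h4 : ∀ i, Y (k + 1) i - y0 i ∈ m := by
        intro i
        have : Y (k + 1) i - y0 i = (Y (k + 1) i - Y k i) + (Y k i - y0 i) := by ring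
        rw [this]
        exact m.add_mem (Ideal.pow_le_self (Nat.succ_ne_zero k) (h3 i)) (h1 i)
      refine ⟨h4, fun i => ?_⟩
      have h5 := hF (k + 1) (Y (k + 1)) (Y k) h4 h1 h3 i
      have h6 : M.mulVec (Y (k + 1) - Y k) = -(F (Y k)) := by
        have : Y (k + 1) - Y k = -(N.mulVec (F (Y k))) := by rw [hYs]; abel
        rw [this, Matrix.mulVec_neg, Matrix.mulVec_mulVec, hMN, Matrix.one_mulVec]
      rw [h6] at h5
      have h7 : F (Y (k + 1)) i - F (Y k) i - (-(F (Y k))) i = F (Y (k + 1)) i := by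
        simp
      rwa [h7] at h5
  have hstep : ∀ k i, Y (k + 1) i - Y k i ∈ m ^ (k + 1) := by
    intro k i
    have : Y (k + 1) i - Y k i = -(N.mulVec (F (Y k)) i) := by
      rw [hYs]; simp
    rw [this]
    exact (m ^ (k + 1)).neg_mem (mulVec_mem _ _ _ (key k).2 i)
  have hcau : ∀ {a b : ℕ}, a ≤ b → ∀ i, Y a i - Y b i ∈ m ^ a := by
    intro a b hab i
    induction b, hab using Nat.le_induction with
    | base => rw [sub_self]; exact (m ^ a).zero_mem
    | succ b hb ih =>
      have : Y a i - Y (b + 1) i = (Y a i - Y b i) - (Y (b + 1) i - Y b i) := by ring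
      rw [this]
      exact (m ^ a).sub_mem ih (Ideal.pow_le_pow_right (by omega) (hstep b i))
  -- the limit
  have hlim : ∀ i, ∃ L : S, ∀ k, Y k i - L ∈ m ^ k := by
    intro i
    obtain ⟨L, hL⟩ := IsPrecomplete.prec (I := m) (M := S) inferInstance
      (f := fun k => Y k i) (by
        intro a b hab
        rw [SModEq.sub_mem, smul_eq_mul, Ideal.mul_top]
        exact hcau hab i)
    refine ⟨L, fun k => ?_⟩
    have := hL k
    rw [SModEq.sub_mem, smul_eq_mul, Ideal.mul_top] at this
    exact this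
  choose y hy using hlim
  have hy0 : ∀ i, y i - y0 i ∈ m := by
    intro i
    have h1 := hy i 1
    rw [pow_one] at h1
    have : y i - y0 i = (Y 1 i - y0 i) - (Y 1 i - y i) := by ring
    rw [this]
    exact m.sub_mem ((key 1).1 i) h1
  refine ⟨y, hy0, ?_⟩
  funext i
  have h1 : ∀ k, F y i ∈ m ^ k := by
    intro k
    have h2 : ∀ j, y j - Y k j ∈ m ^ k := by
      intro j
      have : y j - Y k j = -(Y k j - y j) := by ring
      rw [this]
      exact (m ^ k).neg_mem (hy j k)
    have h3 := hF k y (Y k) hy0 (key k).1 h2 i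
    have h4 : M.mulVec (y - Y k) i ∈ m ^ k := mulVec_mem _ _ _ h2 i
    have : F y i = (F y i - F (Y k) i - (M.mulVec (y - Y k)) i) + F (Y k) i +
        M.mulVec (y - Y k) i := by ring
    rw [this]
    exact (m ^ k).add_mem ((m ^ k).add_mem (Ideal.pow_le_pow_right (Nat.le_succ k) h3)
      (Ideal.pow_le_pow_right (Nat.le_succ k) ((key k).2 i))) h4
  have h2 := IsHausdorff.haus (I := m) (M := S) inferInstance (F y i) (by
    intro k
    rw [SModEq.sub_mem, smul_eq_mul, Ideal.mul_top, sub_zero]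
    exact h1 k)
  simpa using h2

end Pool.Agent.ZAR.H39
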